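import Pool.Agent.Zk47.C3.Def

/-!
# The data in the normalizer, and the elements which fix the character and its partner
-/

set_option autoImplicit false
set_option linter.unusedSectionVars false

open scoped BigOperators Classical

noncomputable section

namespace Pool.Agent.Zk52.C3

open Pool.Agent.Helper884 Pool.Agent.H254R3.IN
open Pool.Agent.K3h3.KB Pool.Agent.K3h3.MK
open IC (Irr)
open Pool.Agent.K3h83.IN (ov wo fixes S1 S2 S3b)
open Pool.Agent.Zk54.MQ
open Pool.Agent.Zk47.C3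

theorem t_B3 : StB3 := by
  intro p _ G U Ω Ω' _ _ _ _ _ _ _ P _ m α π α₀ m₀ hc
  obtain ⟨h, hU, hP, q, hα₀, hs, hm₀⟩ := hc
  refine ⟨?_, ?_, ?_, ?_, ?_, ?_, ?_⟩
  · intro n v
    apply Subtype.ext
    have h1 := h.eqv (n : G) (fun ω => v (π ω))
    have e : ((n * m₀ v * n⁻¹ : Pool.Agent.K3h3.MK.NN P) : G) = (n : G) * m (fun ω => v (π ω)) * (n : G)⁻¹ := by
      rw [← hm₀]
      rfl
    rw [e, h1, hm₀]
    congr 1
    funext ω
    have e1 : π ((n : G)⁻¹ • ω) = n⁻¹ • π ω := q.equi n⁻¹ ω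
    rw [hα₀, e1]
  · intro n k o
    obtain ⟨ω, rfl⟩ := q.surj o
    rw [← hα₀ (n * k) ω, ← q.equi k ω, ← hα₀ n, ← hα₀ k]
    exact h.mul (n : G) (k : G) ω
  · intro v o
    obtain ⟨ω, rfl⟩ := q.surj o
    rw [← q.equi, hm₀, h.triv]
  · intro v o u
    obtain ⟨ω, rfl⟩ := q.surj o
    rw [← hα₀, hm₀, h.inn]
  · intro v hv o
    obtain ⟨ω, rfl⟩ := q.surj o
    have h1 : m (fun ω => v (π ω)) = 1 := by
      rw [← hm₀, hv]
      rfl
    exact h.ker _ h1 ω
  · intro v hv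
    have h1 := h.cen (fun ω => v (π ω)) (fun ω => hv (π ω))
    rw [Subgroup.mem_center_iff] at h1 ⊢
    intro y
    apply Subtype.ext
    have h2 := h1 (y : G)
    rw [← hm₀] at h2
    exact h2
  · intro n o z hz
    obtain ⟨ω, rfl⟩ := q.surj o
    rw [← hα₀]
    exact h.fixc _ _ z hz

theorem t_F : StF := by
  intro p _ G U Ω Ω' _ _ _ _ _ _ _ P _ m α π α₀ m₀ hc τ g hg θ θ₀ hθ hθ₀ n
  have hw := t_B3 P m α π α₀ m₀ hc
  obtain ⟨h, hU, hP, q, hα₀, hs, hm₀⟩ := hc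
  constructor
  · rw [fixes_gen m (n : G) (α (n : G)) (h.eqv (n : G)) (F := fun ω => g (π ω)) (fun ω => hg (π ω)) hθ]
    constructor
    · intro H o v
      obtain ⟨ω, rfl⟩ := q.surj o
      rw [← q.equi, ← hα₀]
      exact H ω v
    · intro H ω v
      rw [q.equi, hα₀]
      exact H (π ω) v
  · rw [fixes_gen m₀ n (α₀ n) (hw.eqv n) (F := C2.gt τ π g) (C2.gt_irr τ π hg) hθ₀]
    have e : ∀ o v, C2.gt τ π g (n • o) (α₀ n o v) = C2.gt τ π g o v ↔ g (n • o) (α₀ n o v) = g o v := by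
      intro o v
      unfold C2.gt
      rw [C2.K_smul q n o]
      exact (τ (C2.K π o)).injective.eq_iff
    exact forall_congr' fun o => forall_congr' fun v => e o v

end Pool.Agent.Zk52.C3
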