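import Pool.Agent.Y839.H.Astep2

/-!
# Reduction of the order of the stabilisers with two gradings, with domination

A copy of the proof of `t_ASTEP2` (starting file) with one more conclusion: the new charts contain
the parts of degree zero of the old ones.
-/

set_option autoImplicit false

namespace Pool.Agent.Zk52

open Pool.Agent.Y223.G Pool.Agent.Y574.G Pool.Agent.Y839.H

/-- The charts of the new atlas contain the parts of degree zero of charts of the old one. -/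
theorem astep2_dom (hgens : S_GENS) (hval : S_VAL) (hlowft : S_LOWFT) (hlowreg : S_LOWREG)
    (k K K₂ : Type) [CommRing k] [IsDomain k] [IsNoetherianRing k] [Field K]
    [Field K₂] [Algebra k K] [Algebra k K₂] (hkK : Function.Injective (algebraMap k K))
    (ε : LP K →ₐ[k] K₂) (hExt : Ext2 ε) (P : Prop) (M₀ : Submodule k K)
    (𝒱 : Set (ValuationSubring K₂)) (h𝒱 : ∀ V ∈ 𝒱, ∀ c : k, algebraMap k K₂ c ∈ V) (n₀ : ℕ)
    (hn₀ : 0 < n₀) (ρ : ℕ) (hρ : 2 ≤ ρ) (T : Type) [Finite T] (C : T → Subalgebra k (LP K₂))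
    (H : T → K) (h : AtlasS P ε M₀ 𝒱 n₀ ρ C H) :
    ∃ (T' : Type) (_ : Finite T') (C' : T' → Subalgebra k (LP K₂)) (H' : T' → K),
      AtlasS P ε M₀ 𝒱 n₀ (ρ - 1) C' H' ∧ ∀ t', ∃ t, ∀ x, hm 0 x ∈ C t → hm 0 x ∈ C' t' := by
  classical
  have hρ0 : (0 : ℤ) < ρ := by exact_mod_cast (by omega : 0 < ρ)
  have hρ1 : (1 : ℤ) < ρ := by exact_mod_cast (by omega : 1 < ρ)
  choose r hr hrρ cu uu huu0 huu huu' using h.un
  let u : T → K₂ := fun t => ε (hm (cu t) (uu t))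
  have hu0 : ∀ t, u t ≠ 0 := fun t => eps_ne ε (huu0 t)
  have hu : ∀ t, hm (r t) (u t) ∈ C t := huu
  have hu' : ∀ t, hm (-(r t : ℤ)) (u t)⁻¹ ∈ C t := by
    intro t
    change hm (-(r t : ℤ)) (ε (hm (cu t) (uu t)))⁻¹ ∈ C t
    rw [eps_inv ε (huu0 t)]
    exact huu' t
  choose w hw0 hw hw' using h.su
  have hgen : ∀ t, ∃ (J : Type) (_ : Finite J) (_ : Nonempty J) (d : J → ℕ) (c : J → ℤ)
      (a : J → K), (∀ j, 0 < d j ∧ d j < ρ ∧ a j ≠ 0 ∧ hm (d j) (ε (hm (c j) (a j))) ∈ C t) ∧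
      ∀ (e : ℕ) (y : K₂), 0 < e → e < ρ → hm e y ∈ C t →
        hm e y ∈ Dx (C t) d (fun j => ε (hm (c j) (a j))) := by
    intro t
    obtain ⟨J, hJ, hJn, d, x, hx, hD⟩ := hgens k K₂ (C t) (h.ft t) (h.gr t) ρ (r t) hρ (hr t)
      (hrρ t) (u t) (hu0 t) (hu t) (h.ss t)
    exact refine_gens (h.bg t) hx hD
  choose J hJ hJn d cc aa hxa hD using hgen
  let x : ∀ t, J t → K₂ := fun t j => ε (hm (cc t j) (aa t j))
  have hx : ∀ t j, 0 < d t j ∧ d t j < ρ ∧ x t j ≠ 0 ∧ hm (d t j) (x t j) ∈ C t := fun t j =>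
    ⟨(hxa t j).1, (hxa t j).2.1, eps_ne ε (hxa t j).2.2.1, (hxa t j).2.2.2⟩
  let Fa : ℕ := ρ.factorial
  let L : ℕ := n₀ * Fa
  have hL0 : 0 < L := Nat.mul_pos hn₀ (Nat.factorial_pos ρ)
  have hFd : ∀ e : ℕ, 0 < e → e ≤ ρ → e ∣ Fa := fun e he heρ => Nat.dvd_factorial he heρ
  have hLd : ∀ e : ℕ, 0 < e → e ≤ ρ → e ∣ L := fun e he heρ => (hFd e he heρ).mul_left _
  let U : T → K₂ := fun t => u t ^ (L / r t)
  have hU0 : ∀ t, U t ≠ 0 := fun t => pow_ne_zero _ (hu0 t)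
  have hU : ∀ t, hm L (U t) ∈ C t := by
    intro t
    have h1 := (C t).pow_mem (hu t) (L / r t)
    rw [hm_pow] at h1
    have h2 : ((L / r t : ℕ) : ℤ) * r t = L := by
      exact_mod_cast Nat.div_mul_cancel (hLd _ (hr t) (hrρ t))
    rwa [h2] at h1
  have hU' : ∀ t, hm (-(L : ℤ)) (U t)⁻¹ ∈ C t := by
    intro t
    have h1 := (C t).pow_mem (hu' t) (L / r t)
    rw [hm_pow, inv_pow] at h1
    have h2 : ((L / r t : ℕ) : ℤ) * r t = L := by
      exact_mod_cast Nat.div_mul_cancel (hLd _ (hr t) (hrρ t))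
    have h3 : ((L / r t : ℕ) : ℤ) * -(r t : ℤ) = -(L : ℤ) := by rw [mul_neg, h2]
    rwa [h3] at h1
  let T' := Σ t, J t
  have hfinJ : ∀ t, Fintype (J t) := fun t => Fintype.ofFinite _
  have hfinT : Fintype T := Fintype.ofFinite T
  let q : T' → ℕ := fun p => L / d p.1 p.2
  have hq : ∀ p : T', q p * d p.1 p.2 = L := fun p =>
    Nat.div_mul_cancel (hLd _ (hx p.1 p.2).1 (hx p.1 p.2).2.1.le)
  have hqL : ∀ p : T', q p ≤ L := fun p => Nat.div_le_self _ _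
  have hq1 : ∀ p : T', 1 ≤ q p := by
    intro p
    by_contra hc
    have : q p = 0 := by omega
    have h1 := hq p
    rw [this, zero_mul] at h1
    omega
  let hh : T' → K₂ := fun p => (U p.1)⁻¹ * x p.1 p.2 ^ q p
  have hxm : ∀ p : T', hm (d p.1 p.2) (x p.1 p.2) ∈ C p.1 := fun p => (hx p.1 p.2).2.2.2
  have hxpow : ∀ p : T', hm (d p.1 p.2) (x p.1 p.2) ^ q p = hm L (x p.1 p.2 ^ q p) := by
    intro p
    rw [hm_pow]
    congr 1
    exact_mod_cast hq p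
  have hhC' : ∀ p : T', hm 0 (hh p) ∈ C p.1 := by
    intro p
    have h1 := (C p.1).mul_mem (hU' p.1) ((C p.1).pow_mem (hxm p) (q p))
    rw [hxpow, hm_mul, neg_add_cancel] at h1
    exact h1
  -- correction of the degree
  have hcor : ∀ p : T', ∃ (om : K₂) (al : K), om ≠ 0 ∧ al ≠ 0 ∧ hm 0 om ∈ C p.1 ∧
      hm 0 om⁻¹ ∈ C p.1 ∧ hh p * om = ez ε al := by
    intro p
    have hF1 := hFd _ (hr p.1) (hrρ p.1)
    have hF2 := hFd _ (hx p.1 p.2).1 (hx p.1 p.2).2.1.le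
    have q1 : L / r p.1 = n₀ * (Fa / r p.1) := Nat.mul_div_assoc n₀ hF1
    have q2 : q p = n₀ * (Fa / d p.1 p.2) := Nat.mul_div_assoc n₀ hF2
    let jj : ℤ := -(((Fa / r p.1 : ℕ) : ℤ) * cu p.1) + ((Fa / d p.1 p.2 : ℕ) : ℤ) * cc p.1 p.2
    have e1 : hh p = ε (hm (-(((L / r p.1 : ℕ) : ℤ) * cu p.1) + (q p : ℤ) * cc p.1 p.2)
        ((uu p.1 ^ (L / r p.1))⁻¹ * aa p.1 p.2 ^ q p)) := by
      change ((ε (hm (cu p.1) (uu p.1))) ^ (L / r p.1))⁻¹ *
        ε (hm (cc p.1 p.2) (aa p.1 p.2)) ^ q p = _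
      rw [eps_pow, eps_pow, eps_inv ε (pow_ne_zero _ (huu0 p.1)), eps_mul]
    have e2 : -(((L / r p.1 : ℕ) : ℤ) * cu p.1) + (q p : ℤ) * cc p.1 p.2 = n₀ * jj := by
      rw [q1, q2, Nat.cast_mul, Nat.cast_mul]
      change _ = (n₀ : ℤ) * (-(((Fa / r p.1 : ℕ) : ℤ) * cu p.1) +
        ((Fa / d p.1 p.2 : ℕ) : ℤ) * cc p.1 p.2)
      ring
    have hwu := hw p.1
    have hwu' : hm (-0 : ℤ) (ε (hm n₀ (w p.1)))⁻¹ ∈ C p.1 := by
      rw [neg_zero, eps_inv ε (hw0 p.1)]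
      exact hw' p.1
    have z1 := zpow_unit_mem hwu hwu' (-jj)
    have z2 := zpow_unit_mem hwu hwu' jj
    rw [mul_zero] at z1 z2
    refine ⟨ε (hm n₀ (w p.1)) ^ (-jj), (uu p.1 ^ (L / r p.1))⁻¹ * aa p.1 p.2 ^ q p *
      w p.1 ^ (-jj), zpow_ne_zero _ (eps_ne ε (hw0 p.1)), ?_, z1, ?_, ?_⟩
    · exact mul_ne_zero (mul_ne_zero (inv_ne_zero (pow_ne_zero _ (huu0 _)))
        (pow_ne_zero _ (hxa p.1 p.2).2.2.1)) (zpow_ne_zero _ (hw0 _))
    · rw [← zpow_neg, neg_neg]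
      exact z2
    · rw [e1, e2, eps_zpow ε (hw0 p.1), eps_mul, ez_apply]
      congr 2
      ring
  choose om al hom0 hal0 homC homC' homal using hcor
  have hhC : ∀ p : T', hm 0 (ez ε (al p)) ∈ C p.1 := by
    intro p
    rw [← homal p]
    have h1 := (C p.1).mul_mem (hhC' p) (homC p)
    rwa [hm_mul, add_zero] at h1
  -- the modification
  obtain ⟨m₀, N3, hmo⟩ : ∃ m₀ N3 : ℕ, P → 1 ≤ m₀ ∧ (∀ t, H t ∈ sat (M₀ ^ m₀) ∧
      (∀ m ∈ M₀ ^ m₀, ∃ s : k, s ≠ 0 ∧ hm 0 (ez ε (s • (m / H t))) ∈ C t) ∧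
      ∀ (f : K) (b : ℤ), hm 0 (ε (hm b f)) ∈ C t → ∃ N₀ : ℕ, ∀ N, N₀ ≤ N →
        H t ^ N * f ∈ sat (M₀ ^ (m₀ * N))) ∧
      ∀ (p : T') (N : ℕ), N3 ≤ N → H p.1 ^ N * al p ∈ sat (M₀ ^ (m₀ * N)) := by
    by_cases hP : P
    · obtain ⟨m₀, hn1, hn2⟩ := h.mo hP
      choose N₀ hN₀ using fun p : T' => (hn2 p.1).2.2 (al p) 0 (hhC p)
      refine ⟨m₀, Finset.univ.sup N₀, fun _ => ⟨hn1, hn2, fun p N hN => hN₀ p N ?_⟩⟩
      exact (Finset.le_sup (f := N₀) (Finset.mem_univ p)).trans hN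
    · exact ⟨0, 0, fun h' => absurd h' hP⟩
  -- the constants
  let z : T → T → LP K₂ := fun t t' => hm 0 (ez ε (H t' / H t))
  have hgl : ∀ t t', ∀ f ∈ C t', ∃ n : ℕ, z t t' ^ n * f ∈ C t := h.gl
  have hrt : ∀ t t', z t t' ∈ C t := h.rt
  choose n1 hn1 using fun (t : T) (p : T') => hgl t p.1 _ (hxm p)
  choose n2 hn2 using fun (t t' : T) => hgl t t' _ (hU' t')
  choose n4 hn4 using fun (t : T) (p : T') => hgl t p.1 _ (homC p)
  let N1 : ℕ := Finset.univ.sup fun t => Finset.univ.sup (n1 t)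
  let N2 : ℕ := Finset.univ.sup fun t => Finset.univ.sup (n2 t)
  let N4 : ℕ := Finset.univ.sup fun t => Finset.univ.sup (n4 t)
  have hN1 : ∀ t p, n1 t p ≤ N1 := fun t p => (Finset.le_sup (f := n1 t) (Finset.mem_univ p)).trans
    (Finset.le_sup (f := fun t => Finset.univ.sup (n1 t)) (Finset.mem_univ t))
  have hN2 : ∀ t p, n2 t p ≤ N2 := fun t p => (Finset.le_sup (f := n2 t) (Finset.mem_univ p)).trans
    (Finset.le_sup (f := fun t => Finset.univ.sup (n2 t)) (Finset.mem_univ t))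
  have hN4 : ∀ t p, n4 t p ≤ N4 := fun t p => (Finset.le_sup (f := n4 t) (Finset.mem_univ p)).trans
    (Finset.le_sup (f := fun t => Finset.univ.sup (n4 t)) (Finset.mem_univ t))
  let N : ℕ := L * N1 + N2 + N4 + 1 + N3
  have hzlow : ∀ t t', z t t' ∈ low (C t) ρ := fun t t' => mem_low (hrt t t') hρ0
  -- first estimate
  have F1 : ∀ (t : T) (p : T') (m a : ℕ), m * N1 ≤ a →
      z t p.1 ^ a * hm (d p.1 p.2) (x p.1 p.2) ^ m ∈ low (C t) ρ := by
    intro t p m a ha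
    obtain ⟨b, rfl⟩ := Nat.exists_eq_add_of_le ha
    obtain ⟨c, hc⟩ := Nat.exists_eq_add_of_le (hN1 t p)
    have h1 : z t p.1 ^ n1 t p * hm (d p.1 p.2) (x p.1 p.2) ∈ low (C t) ρ := by
      have h2 := hn1 t p
      change hm 0 (ez ε (H p.1 / H t)) ^ n1 t p * _ ∈ _ at h2
      change hm 0 (ez ε (H p.1 / H t)) ^ n1 t p * _ ∈ _
      rw [hm_pow, hm_mul] at h2 ⊢
      refine mem_low h2 ?_
      rw [mul_zero, zero_add]
      exact_mod_cast (hx p.1 p.2).2.1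
    have h3 : z t p.1 ^ (m * N1 + b) * hm (d p.1 p.2) (x p.1 p.2) ^ m =
        z t p.1 ^ (m * c + b) *
          (z t p.1 ^ n1 t p * hm (d p.1 p.2) (x p.1 p.2)) ^ m := by
      rw [hc]; ring
    rw [h3]
    exact (low (C t) ρ).mul_mem ((low (C t) ρ).pow_mem (hzlow t p.1) _)
      ((low (C t) ρ).pow_mem h1 _)
  have F2 : ∀ (t t' : T) (m a : ℕ), m * N2 ≤ a →
      z t t' ^ a * hm 0 ((U t')⁻¹ * U t) ^ m ∈ low (C t) ρ := by
    intro t t' m a ha
    obtain ⟨b, rfl⟩ := Nat.exists_eq_add_of_le ha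
    obtain ⟨c, hc⟩ := Nat.exists_eq_add_of_le (hN2 t t')
    have h1 : z t t' ^ n2 t t' * hm 0 ((U t')⁻¹ * U t) ∈ low (C t) ρ := by
      have h2 := (C t).mul_mem (hn2 t t') (hU t)
      have h4 : z t t' ^ n2 t t' * hm (-(L : ℤ)) (U t')⁻¹ * hm L (U t) =
          z t t' ^ n2 t t' * hm 0 ((U t')⁻¹ * U t) := by
        rw [mul_assoc, hm_mul, neg_add_cancel]
      rw [h4] at h2
      change hm 0 (ez ε (H t' / H t)) ^ n2 t t' * _ ∈ _ at h2
      change hm 0 (ez ε (H t' / H t)) ^ n2 t t' * _ ∈ _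
      rw [hm_pow, hm_mul] at h2 ⊢
      refine mem_low h2 ?_
      rw [mul_zero, zero_add]
      exact hρ0
    have h3 : z t t' ^ (m * N2 + b) * hm 0 ((U t')⁻¹ * U t) ^ m =
        z t t' ^ (m * c + b) *
          (z t t' ^ n2 t t' * hm 0 ((U t')⁻¹ * U t)) ^ m := by
      rw [hc]; ring
    rw [h3]
    exact (low (C t) ρ).mul_mem ((low (C t) ρ).pow_mem (hzlow t t') _)
      ((low (C t) ρ).pow_mem h1 _)
  have F4 : ∀ (t : T) (p : T') (m a : ℕ), m * N4 ≤ a →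
      z t p.1 ^ a * hm 0 (om p) ^ m ∈ low (C t) ρ := by
    intro t p m a ha
    obtain ⟨b, rfl⟩ := Nat.exists_eq_add_of_le ha
    obtain ⟨c, hc⟩ := Nat.exists_eq_add_of_le (hN4 t p)
    have h1 : z t p.1 ^ n4 t p * hm 0 (om p) ∈ low (C t) ρ := by
      have h2 := hn4 t p
      change hm 0 (ez ε (H p.1 / H t)) ^ n4 t p * _ ∈ _ at h2
      change hm 0 (ez ε (H p.1 / H t)) ^ n4 t p * _ ∈ _
      rw [hm_pow, hm_mul] at h2 ⊢
      refine mem_low h2 ?_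
      rw [mul_zero, zero_add]
      exact hρ0
    have h3 : z t p.1 ^ (m * N4 + b) * hm 0 (om p) ^ m =
        z t p.1 ^ (m * c + b) * (z t p.1 ^ n4 t p * hm 0 (om p)) ^ m := by
      rw [hc]; ring
    rw [h3]
    exact (low (C t) ρ).mul_mem ((low (C t) ρ).pow_mem (hzlow t p.1) _)
      ((low (C t) ρ).pow_mem h1 _)
  have F3 : ∀ (t t' : T), ∀ f ∈ low (C t') ρ, ∃ n : ℕ, z t t' ^ n * f ∈ low (C t) ρ := by
    intro t t'
    have h1 : low (C t') ρ ≤ loc (low (C t) ρ) (z t t') (hzlow t t') := by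
      conv_lhs => unfold low
      rw [Algebra.adjoin_le_iff]
      rintro _ ⟨hf, e, a, he, rfl⟩
      obtain ⟨n, hn⟩ := hgl t t' _ hf
      refine ⟨n, ?_⟩
      change hm 0 (ez ε (H t' / H t)) ^ n * _ ∈ _ at hn
      change hm 0 (ez ε (H t' / H t)) ^ n * _ ∈ _
      rw [hm_pow, hm_mul] at hn ⊢
      refine mem_low hn ?_
      rw [mul_zero, zero_add]
      exact he
    exact fun f hf => h1 hf
  let H' : T' → K := fun p => H p.1 ^ N * al p
  have hH'0 : ∀ p, H' p ≠ 0 := fun p => mul_ne_zero (pow_ne_zero _ (h.H0 _)) (hal0 p)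
  have hezH : ∀ p, ez ε (H' p) = ez ε (H p.1) ^ N * ((U p.1)⁻¹ * x p.1 p.2 ^ q p * om p) := by
    intro p
    change ez ε (H p.1 ^ N * al p) = _
    rw [map_mul, map_pow, ← homal p]
  have hezH0 : ∀ t, ez ε (H t) ≠ 0 := fun t => eps_ne ε (h.H0 t)
  let C' : T' → Subalgebra k (LP K₂) := fun p =>
    loc (low (C p.1) ρ) (hm (d p.1 p.2) (x p.1 p.2))
      (mem_low (hxm p) (by exact_mod_cast (hx p.1 p.2).2.1))
  -- the ratio of the markers
  have hratio : ∀ (p p' : T') (n : ℕ), hm (d p.1 p.2) (x p.1 p.2) ^ (n * q p) *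
      hm 0 (ez ε (H' p' / H' p)) ^ n = z p.1 p'.1 ^ (n * N) *
        hm 0 ((U p'.1)⁻¹ * U p.1) ^ n * (hm 0 (om p') ^ n * hm 0 (om p)⁻¹ ^ n) *
        hm (d p'.1 p'.2) (x p'.1 p'.2) ^ (n * q p') := by
    intro p p' n
    have h1 : hm (d p.1 p.2) (x p.1 p.2) ^ (q p) * hm 0 (ez ε (H' p' / H' p)) =
        z p.1 p'.1 ^ N * hm 0 ((U p'.1)⁻¹ * U p.1) * (hm 0 (om p') * hm 0 (om p)⁻¹) *
          hm (d p'.1 p'.2) (x p'.1 p'.2) ^ (q p') := by
      change _ = hm 0 (ez ε (H p'.1 / H p.1)) ^ N * _ * _ * _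
      rw [hxpow, hxpow, hm_pow, hm_mul, hm_mul, hm_mul, hm_mul, hm_mul]
      congr 1
      · ring
      · rw [map_div₀, map_div₀, hezH, hezH]
        have e1 := hezH0 p.1
        have e2 := hU0 p.1
        have e3 := hU0 p'.1
        have e4 := (hx p.1 p.2).2.2.1
        have e5 := hom0 p
        rw [div_pow]
        field_simp
    have h2 : hm (d p.1 p.2) (x p.1 p.2) ^ (n * q p) * hm 0 (ez ε (H' p' / H' p)) ^ n =
        (hm (d p.1 p.2) (x p.1 p.2) ^ (q p) * hm 0 (ez ε (H' p' / H' p))) ^ n := by ring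
    rw [h2, h1]
    ring
  have homlow : ∀ p, hm 0 (om p)⁻¹ ∈ low (C p.1) ρ := fun p => mem_low (homC' p) hρ0
  have hlft : ∀ t, Algebra.FiniteType k (low (C t) ρ) := by
    intro t
    rcases (hrρ t).eq_or_lt with heq | hlt
    · refine hlowft k K₂ (C t) (h.ft t) (h.gr t) ρ (by omega) (u t) (hu0 t) ?_ ?_
      · rw [← heq]; exact hu t
      · rw [← heq]; exact hu' t
    · rw [low_eq_of_unit (h.gr t) (hr t) hlt (hu0 t) (hu t) (hu' t)]
      exact h.ft t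
  have hlrg : ∀ t, IsRegularRing (low (C t) ρ) := by
    intro t
    rcases (hrρ t).eq_or_lt with heq | hlt
    · refine hlowreg k K₂ (C t) (h.ft t) (h.rg t) (h.gr t) ρ (by omega) (u t) (hu0 t) ?_ ?_
      · rw [← heq]; exact hu t
      · rw [← heq]; exact hu' t
    · rw [low_eq_of_unit (h.gr t) (hr t) hlt (hu0 t) (hu t) (hu' t)]
      exact h.rg t
  refine ⟨T', inferInstance, C', H', ?_, fun p => ⟨p.1, fun x hx => le_loc _ _ _ (mem_low hx hρ0)⟩⟩
  refine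
    { H0 := hH'0
      ft := fun p => ft_loc (hlft p.1) _ (isUnit_hm (hx p.1 p.2).2.2.1)
      rg := fun p => regular_loc (hlrg p.1) _ (isUnit_hm (hx p.1 p.2).2.2.1)
      gr := fun p => gr_loc (gr_low _ _) (hx p.1 p.2).2.2.1 _
      bg := fun p => bg_loc (bg_low (h.bg p.1) ρ) (hxa p.1 p.2).2.2.1 _
      ss := fun p => le_loc _ _ _ (mem_low (h.ss p.1) (by linarith))
      si := fun p => le_loc _ _ _ (mem_low (h.si p.1) hρ0)
      su := fun p => ⟨w p.1, hw0 p.1, le_loc _ _ _ (mem_low (hw p.1) hρ0),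
        le_loc _ _ _ (mem_low (hw' p.1) hρ0)⟩
      un := ?_
      fr := fun p y => by
        obtain ⟨a, b, ha, hb, hb0, hab⟩ := h.fr p.1 y
        exact ⟨a, b, le_loc _ _ _ (mem_low ha hρ0), le_loc _ _ _ (mem_low hb hρ0), hb0, hab⟩
      rt := ?_
      gl := ?_
      cv := ?_
      ve := fun hP p => by
        obtain ⟨s, hs, hs1⟩ := h.ve hP p.1
        exact ⟨s, hs, le_loc _ _ _ (mem_low hs1 hρ1)⟩
      vs := fun hP p => by
        obtain ⟨s, hs, hs1⟩ := h.vs hP p.1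
        exact ⟨s, hs, le_loc _ _ _ (mem_low hs1 hρ0)⟩
      mo := ?_ }
  · intro p
    refine ⟨d p.1 p.2, (hx p.1 p.2).1, by have := (hx p.1 p.2).2.1; omega, cc p.1 p.2,
      aa p.1 p.2, (hxa p.1 p.2).2.2.1, ?_, ?_⟩
    · exact le_loc _ _ _ (mem_low (hxm p) (by exact_mod_cast (hx p.1 p.2).2.1))
    · refine inv_mem_loc _ _ _ _ ?_
      change hm (d p.1 p.2 : ℤ) (ε (hm (cc p.1 p.2) (aa p.1 p.2))) * _ = 1
      rw [hm_mul, eps_mul, add_neg_cancel, add_neg_cancel, mul_inv_cancel₀ (hxa p.1 p.2).2.2.1,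
        eps_one, hm_one]
  · intro p p'
    refine ⟨q p, ?_⟩
    change _ * hm 0 (ez ε (H' p' / H' p)) ∈ _
    have h1 := hratio p p' 1
    rw [one_mul, one_mul, pow_one, pow_one, one_mul, pow_one, pow_one] at h1
    rw [h1]
    have h2 : N2 + N4 + q p' * N1 ≤ N := by
      have := Nat.mul_le_mul_right N1 (hqL p')
      change N2 + N4 + q p' * N1 ≤ L * N1 + N2 + N4 + 1 + N3
      omega
    obtain ⟨c, hc⟩ := Nat.exists_eq_add_of_le h2
    have h3 : z p.1 p'.1 ^ N * hm 0 ((U p'.1)⁻¹ * U p.1) * (hm 0 (om p') * hm 0 (om p)⁻¹) *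
          hm (d p'.1 p'.2) (x p'.1 p'.2) ^ (q p') =
        (z p.1 p'.1 ^ (N2 + c) * hm 0 ((U p'.1)⁻¹ * U p.1) ^ 1) *
          ((z p.1 p'.1 ^ N4 * hm 0 (om p') ^ 1) * hm 0 (om p)⁻¹) *
          (z p.1 p'.1 ^ (q p' * N1) * hm (d p'.1 p'.2) (x p'.1 p'.2) ^ (q p')) := by
      rw [hc]; ring
    rw [h3]
    exact (low (C p.1) ρ).mul_mem ((low (C p.1) ρ).mul_mem (F2 p.1 p'.1 1 _ (by omega))
      ((low (C p.1) ρ).mul_mem (F4 p.1 p' 1 _ (by omega)) (homlow p))) (F1 p.1 p' _ _ le_rfl)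
  · intro p p' f hf
    obtain ⟨m, hm'⟩ := hf
    obtain ⟨n0, hn0⟩ := F3 p.1 p'.1 _ hm'
    let n := n0 + m
    refine ⟨n, n * q p, ?_⟩
    change _ * (hm 0 (ez ε (H' p' / H' p)) ^ n * f) ∈ _
    have h1 : m ≤ n * q p' := by
      have := Nat.mul_le_mul_left n (hq1 p')
      have h2 : n = n0 + m := rfl
      omega
    obtain ⟨c, hc⟩ := Nat.exists_eq_add_of_le h1
    have h2 : n * N2 + n * N4 + c * N1 + n0 ≤ n * N := by
      have e1 : c ≤ n * L := by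
        have := Nat.mul_le_mul_left n (hqL p')
        omega
      have e2 := Nat.mul_le_mul_right N1 e1
      have e3 : n * N = n * L * N1 + n * N2 + n * N4 + n + n * N3 := by
        change n * (L * N1 + N2 + N4 + 1 + N3) = _
        ring
      have e4 : n = n0 + m := rfl
      rw [e3]
      omega
    obtain ⟨c', hc'⟩ := Nat.exists_eq_add_of_le h2
    have h3 : hm (d p.1 p.2) (x p.1 p.2) ^ (n * q p) *
        (hm 0 (ez ε (H' p' / H' p)) ^ n * f) =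
        (z p.1 p'.1 ^ (n * N2 + c') * hm 0 ((U p'.1)⁻¹ * U p.1) ^ n) *
          ((z p.1 p'.1 ^ (n * N4) * hm 0 (om p') ^ n) * hm 0 (om p)⁻¹ ^ n) *
          ((z p.1 p'.1 ^ (c * N1) * hm (d p'.1 p'.2) (x p'.1 p'.2) ^ c) *
          (z p.1 p'.1 ^ n0 * (hm (d p'.1 p'.2) (x p'.1 p'.2) ^ m * f))) := by
      rw [← mul_assoc, hratio, hc, hc']
      ring
    rw [h3]
    exact (low (C p.1) ρ).mul_mem ((low (C p.1) ρ).mul_mem (F2 p.1 p'.1 n _ (by omega))
      ((low (C p.1) ρ).mul_mem (F4 p.1 p' n _ le_rfl) ((low (C p.1) ρ).pow_mem (homlow p) n)))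
      ((low (C p.1) ρ).mul_mem (F1 p.1 p' _ _ le_rfl) hn0)
  · intro V hV
    obtain ⟨t, ht⟩ := h.cv V hV
    have hJt := hJn t
    obtain ⟨j, hj⟩ := Finite.exists_max fun j : J t => V.valuation (x t j) ^ (q ⟨t, j⟩)
    refine ⟨⟨t, j⟩, ?_⟩
    rintro y ⟨n, hn⟩
    refine hval k K₂ (C t) ρ (J t) (d t) (x t) (hx t) (hD t) V ht j ?_ y n hn
    intro i
    have h1 := hj i
    have h2 : (V.valuation (x t i) ^ d t j) ^ L ≤ (V.valuation (x t j) ^ d t i) ^ L := by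
      have h3 := pow_le_pow_left' h1 (d t i * d t j)
      have e1 := hq ⟨t, i⟩
      have e2 := hq ⟨t, j⟩
      change q ⟨t, i⟩ * d t i = L at e1
      change q ⟨t, j⟩ * d t j = L at e2
      rw [← pow_mul, ← pow_mul] at h3 ⊢
      have e3 : q ⟨t, i⟩ * (d t i * d t j) = d t j * L := by rw [← e1]; ring
      have e4 : q ⟨t, j⟩ * (d t i * d t j) = d t i * L := by rw [← e2]; ring
      rwa [e3, e4] at h3
    exact le_of_pow_le_pow_left₀ hL0.ne' zero_le h2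
  · intro hP
    obtain ⟨hn1, hn2, hn3⟩ := hmo hP
    have hN1' : 1 ≤ N := by
      change 1 ≤ L * N1 + N2 + N4 + 1 + N3
      omega
    have hN3' : N3 ≤ N - 1 := by
      change N3 ≤ L * N1 + N2 + N4 + 1 + N3 - 1
      omega
    refine ⟨m₀ * N, Nat.mul_pos hn1 hN1', fun p => ⟨hn3 p N (by omega), ?_, ?_⟩⟩
    · intro m hm'
      rw [pow_mul] at hm'
      obtain ⟨s1, hs1, h1⟩ := quot_mem2 (C p.1) (hn2 p.1).2.1 N m hm'
      obtain ⟨s0, hs0, h0⟩ := h.ve hP p.1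
      refine ⟨s0 ^ L * s1, mul_ne_zero (pow_ne_zero _ hs0) hs1, q p, ?_⟩
      change _ * hm 0 (ez ε ((s0 ^ L * s1) • (m / H' p))) ∈ _
      have h2 := (C p.1).mul_mem ((C p.1).mul_mem h1 (homC' p)) (hU p.1)
      rw [hm_mul, hm_mul, zero_add, zero_add] at h2
      have h3 := down_mem hρ (h.ss p.1) h0 L h2
      rw [hxpow, hm_mul, add_zero]
      have e1 : x p.1 p.2 ^ q p * ez ε ((s0 ^ L * s1) • (m / H' p)) =
          s0 ^ L • (ez ε (s1 • (m / H p.1 ^ N)) * (om p)⁻¹ * U p.1) := by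
        rw [map_smul, map_smul, map_div₀, map_div₀, hezH, map_pow]
        have e2 := hezH0 p.1
        have e3 := hU0 p.1
        have e4 := (hx p.1 p.2).2.2.1
        have e5 := hom0 p
        rw [Algebra.smul_def, Algebra.smul_def, Algebra.smul_def, map_mul]
        field_simp
      rw [e1]
      exact h3
    · intro f b' hf
      obtain ⟨j, hj⟩ := hf
      have hg : hm 0 (ε (hm b' (f * al p ^ j))) ∈ C p.1 := by
        have h1 := low_le _ _ hj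
        obtain ⟨c, hc⟩ := Nat.exists_eq_add_of_le (hq1 p)
        have h2 := (C p.1).mul_mem ((C p.1).mul_mem h1 (((C p.1).mul_mem
          ((C p.1).pow_mem (hxm p) (c * j)) ((C p.1).pow_mem (hU' p.1) j))))
          ((C p.1).pow_mem (homC p) j)
        have e1 : hm (d p.1 p.2) (x p.1 p.2) ^ j * hm 0 (ε (hm b' f)) *
            (hm (d p.1 p.2) (x p.1 p.2) ^ (c * j) * hm (-(L : ℤ)) (U p.1)⁻¹ ^ j) *
            hm 0 (om p) ^ j = hm 0 (ε (hm b' (f * al p ^ j))) := by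
          have e2 : hm (d p.1 p.2) (x p.1 p.2) ^ j * hm 0 (ε (hm b' f)) *
              (hm (d p.1 p.2) (x p.1 p.2) ^ (c * j) * hm (-(L : ℤ)) (U p.1)⁻¹ ^ j) *
              hm 0 (om p) ^ j =
            hm 0 (ε (hm b' f)) * (hm (-(L : ℤ)) (U p.1)⁻¹ *
              hm (d p.1 p.2) (x p.1 p.2) ^ q p * hm 0 (om p)) ^ j := by
            rw [hc]; ring
          have e3 : hm (-(L : ℤ)) (U p.1)⁻¹ *
              hm (d p.1 p.2) (x p.1 p.2) ^ q p * hm 0 (om p) = hm 0 (ez ε (al p)) := by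
            rw [hxpow, hm_mul, neg_add_cancel, hm_mul, add_zero]
            congr 1
            exact homal p
          rw [e2, e3, hm_pow, hm_mul, mul_zero, add_zero, ez_apply, eps_pow, eps_mul, mul_zero,
            add_zero]
        rw [e1] at h2
        exact h2
      obtain ⟨N0, hN0⟩ := (hn2 p.1).2.2 _ _ hg
      refine ⟨j + N0, fun N'' hN'' => ?_⟩
      obtain ⟨b, hb⟩ := Nat.exists_eq_add_of_le (show j ≤ N'' by omega)
      obtain ⟨N', hN'⟩ := Nat.exists_eq_add_of_le hN1'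
      have h1 := sat_pow (hn3 p N' (by omega)) b
      have h2 := hN0 (b + N * j) (by
        have : b ≤ b + N * j := Nat.le_add_right _ _
        omega)
      have h3 := sat_mul h1 h2
      have e1 : (H p.1 ^ N' * al p) ^ b * (H p.1 ^ (b + N * j) * (f * al p ^ j)) =
          H' p ^ N'' * f := by
        change _ = (H p.1 ^ N * al p) ^ N'' * f
        rw [hb, hN']
        ring
      have e2 : m₀ * N' * b + m₀ * (b + N * j) = m₀ * N * N'' := by
        rw [hb, hN']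
        ring
      rw [e1, e2] at h3
      exact h3

end Pool.Agent.Zk52
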