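import Mathlib

/-!
Tensor products of smooth algebras, given by the universal property.
-/

set_option autoImplicit false
set_option linter.overlappingInstances false

namespace Pool.Agent.Zk10.PG

/-- points of an algebra of finite type over an algebraically closed field -/
theorem exists_ev {k B : Type} [Field k] [IsAlgClosed k] [CommRing B] [Algebra k B]
    [Algebra.FiniteType k B] (P : Ideal B) (hP : P.IsMaximal) :
    ∃ ev : B →ₐ[k] k, ∀ b, ev b = 0 ↔ b ∈ P := by
  let _ : Field (B ⧸ P) := Ideal.Quotient.field P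
  have : Algebra.FiniteType k (B ⧸ P) :=
    Algebra.FiniteType.of_surjective (Ideal.Quotient.mkₐ k P) (Ideal.Quotient.mkₐ_surjective k P)
  have hfin : Module.Finite k (B ⧸ P) := finite_of_finite_type_of_isJacobsonRing k (B ⧸ P)
  have hint : Algebra.IsIntegral k (B ⧸ P) := inferInstance
  have hb := IsAlgClosed.algebraMap_bijective_of_isIntegral (k := k) (K := B ⧸ P)
  let e : k ≃ₐ[k] (B ⧸ P) := AlgEquiv.ofBijective (Algebra.ofId k (B ⧸ P)) hb
  refine ⟨(e.symm : (B ⧸ P) →ₐ[k] k).comp (Ideal.Quotient.mkₐ k P), fun b => ?_⟩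
  change e.symm (Ideal.Quotient.mk P b) = 0 ↔ b ∈ P
  rw [EmbeddingLike.map_eq_zero_iff, Ideal.Quotient.eq_zero_iff_mem]

section tensor

variable {k : Type} [Field k] {n : ℕ} {B : Fin n → Type} [∀ i, CommRing (B i)]
  [∀ i, Algebra k (B i)] {C : Type} [CommRing C] [Algebra k C] (j : ∀ i, B i →ₐ[k] C)

/-- `C` is the tensor product of the `B i`. -/
def IsTens : Prop := ∀ (T : Type) [CommRing T] [Algebra k T] (f : ∀ i, B i →ₐ[k] T),
  ∃! g : C →ₐ[k] T, ∀ i, g.comp (j i) = f i

variable {j} (hj : IsTens j)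

include hj

/-- maps which agree on all factors are equal -/
theorem tens_ext {T : Type} [CommRing T] [Algebra k T] (g g' : C →ₐ[k] T)
    (h : ∀ i, g.comp (j i) = g'.comp (j i)) : g = g' :=
  (hj T fun i => g'.comp (j i)).unique h fun _ => rfl

theorem tens_adjoin : Algebra.adjoin k (⋃ i, Set.range (j i)) = ⊤ := by
  set A := Algebra.adjoin k (⋃ i, Set.range (j i)) with hA
  have hmem : ∀ i b, j i b ∈ A := fun i b =>
    Algebra.subset_adjoin (Set.mem_iUnion.2 ⟨i, b, rfl⟩)
  obtain ⟨g, hg, -⟩ := hj A fun i => (j i).codRestrict A (hmem i)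
  have h1 : A.val.comp g = AlgHom.id k C := by
    refine tens_ext hj _ _ fun i => ?_
    rw [AlgHom.comp_assoc, hg i]
    rfl
  rw [eq_top_iff]
  intro c _
  have h2 := DFunLike.congr_fun h1 c
  rw [AlgHom.id_apply] at h2
  rw [← h2]
  exact (g c).2

theorem tens_ft [∀ i, Algebra.FiniteType k (B i)] : Algebra.FiniteType k C := by
  classical
  have h1 : ∀ i, ∃ s : Finset (B i), Algebra.adjoin k (s : Set (B i)) = ⊤ := fun i =>
    (inferInstance : Algebra.FiniteType k (B i)).out
  choose s hs using h1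
  refine ⟨⟨Finset.univ.biUnion fun i => (s i).image (j i), ?_⟩⟩
  rw [eq_top_iff, ← tens_adjoin hj, Algebra.adjoin_le_iff]
  refine Set.iUnion_subset fun i => ?_
  rintro _ ⟨b, rfl⟩
  have h2 : b ∈ Algebra.adjoin k (s i : Set (B i)) := by
    rw [hs i]
    exact Algebra.mem_top
  have h3 : (Algebra.adjoin k (s i : Set (B i))).map (j i) ≤
      Algebra.adjoin k ((Finset.univ.biUnion fun i => (s i).image (j i) : Finset C) : Set C) := by
    rw [AlgHom.map_adjoin]
    refine Algebra.adjoin_mono ?_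
    rintro _ ⟨b, hb, rfl⟩
    rw [Finset.mem_coe, Finset.mem_biUnion]
    exact ⟨i, Finset.mem_univ _, Finset.mem_image_of_mem _ hb⟩
  exact h3 ⟨b, h2, rfl⟩

theorem tens_smooth [∀ i, Algebra.Smooth k (B i)] : Algebra.Smooth k C := by
  have : ∀ i, Algebra.FiniteType k (B i) := fun i =>
    Algebra.FinitePresentation.of_finiteType.2 inferInstance
  have := tens_ft hj
  refine ⟨Algebra.FormallySmooth.of_comp_surjective ?_,
    Algebra.FinitePresentation.of_finiteType.1 inferInstance⟩
  intro T _ _ I hI f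
  have h1 : ∀ i, ∃ g : B i →ₐ[k] T, (Ideal.Quotient.mkₐ k I).comp g = f.comp (j i) := fun i =>
    Algebra.FormallySmooth.comp_surjective k (B i) I hI (f.comp (j i))
  choose g hg using h1
  obtain ⟨G, hG, -⟩ := hj T g
  refine ⟨G, tens_ext hj _ _ fun i => ?_⟩
  rw [AlgHom.comp_assoc, hG i, hg i]

theorem tens_inj [IsAlgClosed k] [∀ i, Nontrivial (B i)] [∀ i, Algebra.FiniteType k (B i)]
    (i : Fin n) : Function.Injective (j i) := by
  classical
  have h1 : ∀ l, Nonempty (B l →ₐ[k] B i) := by
    intro l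
    obtain ⟨P, hP⟩ := Ideal.exists_maximal (B l)
    obtain ⟨ev, -⟩ := exists_ev (k := k) P hP
    exact ⟨(Algebra.ofId k (B i)).comp ev⟩
  have h2 : ∃ f : ∀ l, B l →ₐ[k] B i, f i = AlgHom.id k (B i) := by
    refine ⟨fun l => if h : l = i then h ▸ AlgHom.id k (B l) else Classical.choice (h1 l), ?_⟩
    simp
  obtain ⟨f, hf⟩ := h2
  obtain ⟨g, hg, -⟩ := hj (B i) f
  intro a b hab
  have h3 := DFunLike.congr_fun (hg i) a
  have h4 := DFunLike.congr_fun (hg i) b
  rw [hf, AlgHom.id_apply] at h3 h4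
  rw [← h3, ← h4, AlgHom.comp_apply, AlgHom.comp_apply, hab]

/-- A derivation at a point of the product. -/
theorem tens_der [IsAlgClosed k] (i : Fin n) [IsDomain (B i)] [IsDedekindDomain (B i)]
    [Algebra.FiniteType k (B i)] (P : Ideal (B i)) (hP : P.IsMaximal) (y : B i) (hy : y ∈ P)
    (hy2 : y ∉ P ^ 2) (q : Ideal C) (hq : q.IsPrime) (hPq : ∀ b ∈ P, j i b ∈ q) :
    ∃ d : C → C ⧸ q, (∀ a b, d (a + b) = d a + d b) ∧
      (∀ a b, d (a * b) = Ideal.Quotient.mk q a * d b + Ideal.Quotient.mk q b * d a) ∧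
      (∀ l, l ≠ i → ∀ b, d (j l b) = 0) ∧ d (j i y) = 1 := by
  classical
  obtain ⟨ev, hev⟩ := exists_ev (k := k) P hP
  have hP0 : P ≠ ⊥ := by
    rintro rfl
    rw [Ideal.mem_bot.1 hy] at hy2
    exact hy2 (Ideal.zero_mem _)
  -- `P = (y) + P ^ 2`
  have hspan : Ideal.span {y} ⊔ P ^ 2 = P := by
    have hle : Ideal.span {y} ⊔ P ^ 2 ≤ P :=
      sup_le ((Ideal.span_singleton_le_iff_mem _).2 hy) (Ideal.pow_le_self two_ne_zero)
    have hdvd : Ideal.span {y} ⊔ P ^ 2 ∣ P ^ 2 := Ideal.dvd_iff_le.2 le_sup_right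
    have hprime : Prime P := Ideal.prime_of_isPrime hP0 hP.isPrime
    obtain ⟨m, hm, hassoc⟩ := (dvd_prime_pow hprime 2).1 hdvd
    rw [associated_iff_eq] at hassoc
    interval_cases m
    · exfalso
      rw [pow_zero, Ideal.one_eq_top] at hassoc
      rw [hassoc] at hle
      exact hP.ne_top (top_le_iff.1 hle)
    · rwa [pow_one] at hassoc
    · exfalso
      apply hy2
      rw [← hassoc]
      exact Ideal.mem_sup_left (Ideal.mem_span_singleton_self y)
  have hsub : ∀ b, b - algebraMap k (B i) (ev b) ∈ P := fun b => by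
    rw [← hev, map_sub, AlgHom.commutes, Algebra.algebraMap_self_apply, sub_self]
  have hmul : ∀ a b, a ∈ P → b ∈ P → a * b ∈ P ^ 2 := fun a b ha hb => by
    rw [pow_two]
    exact Ideal.mul_mem_mul ha hb
  have hex : ∀ b, ∃ c : k, b - algebraMap k (B i) (ev b) - algebraMap k (B i) c * y ∈ P ^ 2 := by
    intro b
    have h1 := hsub b
    rw [← hspan] at h1
    obtain ⟨u, hu, v, hv, huv⟩ := Submodule.mem_sup.1 h1
    obtain ⟨t, rfl⟩ := Ideal.mem_span_singleton'.1 hu
    refine ⟨ev t, ?_⟩
    rw [← huv]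
    have h2 : t * y + v - algebraMap k (B i) (ev t) * y =
        (t - algebraMap k (B i) (ev t)) * y + v := by ring
    rw [h2]
    exact Ideal.add_mem _ (hmul _ _ (hsub t) hy) hv
  choose c hc using hex
  have huniq : ∀ b (x : k), b - algebraMap k (B i) (ev b) - algebraMap k (B i) x * y ∈ P ^ 2 →
      x = c b := by
    intro b x hx
    by_contra hne
    apply hy2
    have h1 := Ideal.sub_mem _ (hc b) hx
    have h2 : b - algebraMap k (B i) (ev b) - algebraMap k (B i) (c b) * y -
        (b - algebraMap k (B i) (ev b) - algebraMap k (B i) x * y) =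
        algebraMap k (B i) (x - c b) * y := by
      rw [map_sub]
      ring
    rw [h2] at h1
    have h3 := Ideal.mul_mem_left _ (algebraMap k (B i) (x - c b)⁻¹) h1
    rwa [← mul_assoc, ← map_mul, inv_mul_cancel₀ (sub_ne_zero.2 hne), map_one, one_mul] at h3
  have hcadd : ∀ a b, c (a + b) = c a + c b := by
    intro a b
    refine (huniq _ _ ?_).symm
    have h1 := Ideal.add_mem _ (hc a) (hc b)
    have h2 : a + b - algebraMap k (B i) (ev (a + b)) - algebraMap k (B i) (c a + c b) * y =
        a - algebraMap k (B i) (ev a) - algebraMap k (B i) (c a) * y +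
          (b - algebraMap k (B i) (ev b) - algebraMap k (B i) (c b) * y) := by
      rw [map_add, map_add, map_add]
      ring
    rw [h2]
    exact h1
  have hcmul : ∀ a b, c (a * b) = ev a * c b + ev b * c a := by
    intro a b
    refine (huniq _ _ ?_).symm
    have h1 := Ideal.add_mem _ (Ideal.mul_mem_left _ b (hc a))
      (Ideal.mul_mem_left _ (algebraMap k (B i) (ev a)) (hc b))
    have h3 := Ideal.mul_mem_left _ (algebraMap k (B i) (c a)) (hmul _ _ hy (hsub b))
    have h4 := Ideal.add_mem _ h1 h3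
    have h2 : a * b - algebraMap k (B i) (ev (a * b)) -
        algebraMap k (B i) (ev a * c b + ev b * c a) * y =
        b * (a - algebraMap k (B i) (ev a) - algebraMap k (B i) (c a) * y) +
          algebraMap k (B i) (ev a) *
            (b - algebraMap k (B i) (ev b) - algebraMap k (B i) (c b) * y) +
          algebraMap k (B i) (c a) * (y * (b - algebraMap k (B i) (ev b))) := by
      rw [map_mul, map_mul, map_add, map_mul, map_mul]
      ring
    rw [h2]
    exact h4
  have hcalg : ∀ x : k, c (algebraMap k (B i) x) = 0 := by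
    intro x
    refine (huniq _ _ ?_).symm
    rw [AlgHom.commutes, Algebra.algebraMap_self_apply, sub_self, map_zero, zero_mul, sub_zero]
    exact Ideal.zero_mem _
  have hcy : c y = 1 := by
    refine (huniq _ _ ?_).symm
    rw [(hev y).2 hy, map_zero, sub_zero, map_one, one_mul, sub_self]
    exact Ideal.zero_mem _
  -- the point of the product
  have hpt : ∀ b, Ideal.Quotient.mk q (j i b) = algebraMap k (C ⧸ q) (ev b) := by
    intro b
    have h1 := hPq _ (hsub b)
    rw [map_sub, AlgHom.commutes] at h1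
    have h2 := Ideal.Quotient.eq.2 h1
    rw [h2]
    rfl
  let fi : B i →ₐ[k] TrivSqZeroExt (C ⧸ q) (C ⧸ q) :=
    { toFun := fun b => TrivSqZeroExt.inl (algebraMap k (C ⧸ q) (ev b)) +
        TrivSqZeroExt.inr (algebraMap k (C ⧸ q) (c b))
      map_one' := by
        have : c 1 = 0 := by
          have := hcalg 1
          rwa [map_one] at this
        rw [map_one, this, map_one, map_zero]
        simp
      map_zero' := by
        have : c 0 = 0 := by
          have := hcalg 0
          rwa [map_zero] at this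
        rw [map_zero, this, map_zero]
        simp
      map_add' := fun a b => by
        rw [hcadd]
        simp only [map_add, TrivSqZeroExt.inl_add, TrivSqZeroExt.inr_add]
        abel
      map_mul' := fun a b => by
        rw [hcmul]
        refine TrivSqZeroExt.ext ?_ ?_
        · simp only [TrivSqZeroExt.fst_add, TrivSqZeroExt.fst_inl, TrivSqZeroExt.fst_inr,
            TrivSqZeroExt.fst_mul, add_zero, map_mul]
        · simp only [TrivSqZeroExt.snd_add, TrivSqZeroExt.snd_inl, TrivSqZeroExt.snd_inr,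
            TrivSqZeroExt.snd_mul, TrivSqZeroExt.fst_add, TrivSqZeroExt.fst_inl,
            TrivSqZeroExt.fst_inr, add_zero, zero_add, map_mul, map_add, smul_eq_mul,
            MulOpposite.smul_eq_mul_unop, MulOpposite.unop_op]
          ring
      commutes' := fun x => by
        rw [hcalg, AlgHom.commutes, Algebra.algebraMap_self_apply, map_zero,
          TrivSqZeroExt.inr_zero, add_zero]
        rfl }
  have hfi : ∀ b, fi b = TrivSqZeroExt.inl (algebraMap k (C ⧸ q) (ev b)) +
        TrivSqZeroExt.inr (algebraMap k (C ⧸ q) (c b)) := fun b => rfl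
  let fl : ∀ l, B l →ₐ[k] TrivSqZeroExt (C ⧸ q) (C ⧸ q) := fun l =>
    ((TrivSqZeroExt.inlAlgHom k (C ⧸ q) (C ⧸ q)).comp (Ideal.Quotient.mkₐ k q)).comp (j l)
  have h2 : ∃ f : ∀ l, B l →ₐ[k] TrivSqZeroExt (C ⧸ q) (C ⧸ q), f i = fi ∧ ∀ l, l ≠ i → f l = fl l := by
    refine ⟨Function.update fl i fi, Function.update_self _ _ _, fun l hl =>
      Function.update_of_ne hl _ _⟩
  obtain ⟨f, hf1, hf2⟩ := h2
  obtain ⟨g, hg, -⟩ := hj (TrivSqZeroExt (C ⧸ q) (C ⧸ q)) f
  have hfst : (TrivSqZeroExt.fstHom k (C ⧸ q) (C ⧸ q)).comp g = Ideal.Quotient.mkₐ k q := by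
    refine tens_ext hj _ _ fun l => ?_
    rw [AlgHom.comp_assoc, hg l]
    by_cases hl : l = i
    · subst hl
      rw [hf1]
      refine AlgHom.ext fun b => ?_
      rw [AlgHom.comp_apply, hfi, AlgHom.comp_apply]
      change (TrivSqZeroExt.inl (algebraMap k (C ⧸ q) (ev b)) +
        TrivSqZeroExt.inr (algebraMap k (C ⧸ q) (c b)) :
          TrivSqZeroExt (C ⧸ q) (C ⧸ q)).fst = Ideal.Quotient.mk q (j l b)
      rw [hpt]
      simp
    · rw [hf2 l hl]
      rfl
  have hfst' : ∀ a, (g a).fst = Ideal.Quotient.mk q a := fun a => DFunLike.congr_fun hfst a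
  refine ⟨fun a => (g a).snd, fun a b => ?_, fun a b => ?_, fun l hl b => ?_, ?_⟩
  · simp
  · simp only [map_mul, TrivSqZeroExt.snd_mul, hfst', smul_eq_mul,
      MulOpposite.smul_eq_mul_unop, MulOpposite.unop_op]
    ring
  · have h3 := DFunLike.congr_fun (hg l) b
    rw [hf2 l hl, AlgHom.comp_apply] at h3
    simp only
    rw [h3]
    rfl
  · have h3 := DFunLike.congr_fun (hg i) y
    rw [hf1, AlgHom.comp_apply, hfi] at h3
    simp only
    rw [h3, hcy, map_one]
    simp

end tensor

end Pool.Agent.Zk10.PG
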